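import Mathlib
import Pool.Agent.Helper64.SatB.Final

/-!
# Saturated bounding does not imply high or PA degree

The definitions are in `Pool/Agent/Helper30/SatB/Defs.lean`. The proof: event-stream forcing
(`Pool/Agent/Helper30/SatB`), the coding system of a theory with computable types
(`Pool/Agent/Helper64/SatB`), countable saturated models and high sets (`Pool/Agent/Helper27`),
Rosser separation in completions of Peano arithmetic (`Pool/Agent/Helper10/PA`).
-/

set_option autoImplicit false

namespace Pool.Agent.Results.MP_5f0f34_lc.NeitherHighNorPA

open Pool.Agent.Helper30.SatB

/-- There is a saturated bounding set which is neither high nor of PA degree. -/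
theorem result : ∃ X : Set ℕ, SaturatedBounding X ∧ ¬ High X ∧ ¬ PADegree X :=
  Pool.Agent.Helper64.SatB.main

end Pool.Agent.Results.MP_5f0f34_lc.NeitherHighNorPA
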